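import Pool.Agent.N292.PK.Defs

/-! Project PG (problem MP_345ce5_an): definitions and statements of the leaves. -/

namespace PG

open Complex Filter Topology Metric Set

/-- `c = e^{-iπ(1-α)/2} = sin (πα/2) - i cos (πα/2)`. -/
noncomputable def cst (α : ℝ) : ℂ :=
  ⟨Real.sin (Real.pi * α / 2), -Real.cos (Real.pi * α / 2)⟩

/-- The denominator `c s^α + s / σ`. -/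
noncomputable def den (α σ : ℝ) (s : ℂ) : ℂ := cst α * s ^ (α : ℂ) + s / (σ : ℂ)

/-- The kernel, with `σ = ρ^{1-α}`. -/
noncomputable def ker (α ρ : ℝ) (s : ℂ) : ℂ := (den α (ρ ^ (1 - α)) s)⁻¹

/-- Leaf K1. -/
def StmK1 : Prop := ∀ α : ℝ, 0 < α → α < 1 → ∀ σ : ℝ, 0 < σ → ∀ s : ℂ, 0 ≤ s.re →
  0 ≤ (den α σ s).re ∧
  Real.sin (Real.pi * α) * ‖s‖ ^ α ≤ ‖den α σ s‖ ∧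
  Real.sin (Real.pi * α) * (‖s‖ / σ) ≤ ‖den α σ s‖ ∧
  ‖den α σ s‖ ≤ ‖s‖ ^ α + ‖s‖ / σ ∧
  Real.cos (Real.pi * α / 2) * ‖s‖ ^ α - ‖s‖ / σ ≤ ((starRingEnd ℂ) (cst α) * den α σ s).re

/-- Leaf K2. -/
def StmK2 : Prop := ∀ α : ℝ, 0 < α → α < 1 → ∃ C : ℝ, 0 < C ∧ ∀ s t : ℂ, 0 ≤ s.re → 0 ≤ t.re →
  ‖s ^ (α : ℂ) - t ^ (α : ℂ)‖ ≤ C * ‖s - t‖ ^ α

/-- Leaf K3 (bounds of the kernel). -/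
def StmK3 : Prop := ∀ α : ℝ, 0 < α → α < 1 → ∃ C D : ℝ, 1 ≤ C ∧ 1 ≤ D ∧
  ∀ ρ : ℝ, 0 < ρ → ∀ s : ℂ, 0 ≤ s.re → s ≠ 0 →
  0 ≤ (ker α ρ s).re ∧
  ‖ker α ρ s‖ ≤ C * (cst α * ker α ρ s).re + D * (ρ ^ (1 - α) / (ρ + ‖s‖)) ∧
  ‖ker α ρ s‖ ≤ C * (ρ ^ (1 - α) / ‖s‖) ∧
  (‖s‖ ≤ ρ → 1 ≤ C * (‖s‖ ^ α * ‖ker α ρ s‖)) ∧
  (0 < s.re → DifferentiableAt ℂ (ker α ρ) s)

/-- Leaf K4 (difference of the kernel). -/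
def StmK4 : Prop := ∀ α : ℝ, 0 < α → α < 1 → ∃ C : ℝ, 1 ≤ C ∧
  ∀ ρ : ℝ, 0 < ρ → ∀ s t : ℂ, 0 ≤ s.re → s ≠ 0 → 0 ≤ t.re → t ≠ 0 →
  ‖ker α ρ s - ker α ρ t‖ ≤ C * ‖s - t‖ ^ α *
    (‖ker α ρ s‖ * ‖ker α ρ t‖ + (ρ + ‖s‖) ^ (-α) * ‖ker α ρ t‖ +
      ‖ker α ρ s‖ * (ρ + ‖t‖) ^ (-α))

/-- The set `E`: the points `a k` and the point `1`. -/
def EE {ι : Type} (a : ι → ℂ) : Set ℂ := insert 1 (range a)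

/-- A configuration of points `a k` of the circle with scales `ρ k`. -/
structure Conf (α : ℝ) {ι : Type} (a : ι → ℂ) (ρ : ι → ℝ) (C0 : ℝ) : Prop where
  one_le : 1 ≤ C0
  norm_a : ∀ k, ‖a k‖ = 1
  im_a : ∀ k, 0 ≤ (a k).im
  re_a : ∀ k, 0 ≤ (a k).re
  rho_pos : ∀ k, 0 < ρ k
  rho_le : ∀ k, ρ k ≤ 1
  tau_le : ∀ k, ‖1 - a k‖ ≤ C0 * ρ k ^ α
  le_tau : ∀ k, ρ k ^ α ≤ C0 * ‖1 - a k‖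
  sum_sig : Summable (fun k => ρ k ^ (1 - α))
  sum_T : ∀ z : ℂ, ‖z‖ ≤ 1 → z ≠ 1 →
    Summable (fun k => ρ k ^ (1 - α) / (ρ k + ‖z - a k‖)) ∧
    ∑' k, ρ k ^ (1 - α) / (ρ k + ‖z - a k‖) ≤ C0 / ‖1 - z‖
  closed : IsClosed (EE a)

/-- The terms of the sum. -/
noncomputable def WW (α : ℝ) {ι : Type} (a : ι → ℂ) (ρ : ι → ℝ) (k : ι) (z : ℂ) : ℂ :=
  ker α (ρ k) (1 - z * (starRingEnd ℂ) (a k))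

/-- The function `V`. -/
noncomputable def VV (α cc : ℝ) {ι : Type} (a : ι → ℂ) (ρ : ι → ℝ) (z : ℂ) : ℂ :=
  (1 - z)⁻¹ + (cc : ℂ) * ∑' k, WW α a ρ k z

/-- The lower bounds of `V`. -/
def Good (α cc K : ℝ) {ι : Type} (a : ι → ℂ) (ρ : ι → ℝ) : Prop :=
  0 < cc ∧ 1 ≤ K ∧ ∀ z : ℂ, ‖z‖ ≤ 1 → z ∉ EE a →
    Summable (fun k => ‖WW α a ρ k z‖) ∧ 0 < (VV α cc a ρ z).re ∧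
    ‖1 - z‖⁻¹ ≤ K * ‖VV α cc a ρ z‖ ∧
    ∑' k, ‖WW α a ρ k z‖ ≤ K * ‖VV α cc a ρ z‖

/-- Leaf S1. -/
def StmS1 : Prop := ∀ α : ℝ, 0 < α → α < 1 → ∀ (ι : Type) (a : ι → ℂ) (ρ : ι → ℝ) (C0 : ℝ),
  Conf α a ρ C0 → ∃ cc K : ℝ, Good α cc K a ρ

/-- Leaf S2. -/
def StmS2 : Prop := ∀ α : ℝ, 0 < α → α < 1 → ∀ (ι : Type) (a : ι → ℂ) (ρ : ι → ℝ) (C0 : ℝ),
  Conf α a ρ C0 → ∀ cc K : ℝ, Good α cc K a ρ → ∃ M : ℝ, 1 ≤ M ∧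
    ∀ z z' : ℂ, ‖z‖ ≤ 1 → ‖z'‖ ≤ 1 → z ∉ EE a → z' ∉ EE a →
      ‖VV α cc a ρ z - VV α cc a ρ z'‖ ≤
        M * ‖z - z'‖ ^ α * (‖VV α cc a ρ z‖ * ‖VV α cc a ρ z'‖)

/-- Leaf S3. -/
def StmS3 : Prop := ∀ α : ℝ, 0 < α → α < 1 → ∀ (ι : Type) (a : ι → ℂ) (ρ : ι → ℝ) (C0 : ℝ),
  Conf α a ρ C0 → ∀ cc K : ℝ, Good α cc K a ρ → ∃ M : ℝ, 1 ≤ M ∧
    ∀ z : ℂ, ‖z‖ ≤ 1 → z ∉ EE a → ∀ e ∈ EE a, 1 ≤ M * ‖z - e‖ ^ α * ‖VV α cc a ρ z‖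

/-- Leaf S4. -/
def StmS4 : Prop := ∀ α : ℝ, 0 < α → α < 1 → ∀ (ι : Type) (a : ι → ℂ) (ρ : ι → ℝ) (C0 : ℝ),
  Conf α a ρ C0 → ∀ cc : ℝ, ∀ z : ℂ, ‖z‖ < 1 → DifferentiableAt ℂ (VV α cc a ρ) z

/-- Leaf P. -/
def StmP : Prop := ∀ α : ℝ, 0 < α → α ≤ 1 → ∀ (E : Set ℂ), IsClosed E → E ⊆ sphere (0 : ℂ) 1 →
  ∀ V : ℂ → ℂ, (∀ z : ℂ, ‖z‖ < 1 → DifferentiableAt ℂ V z) →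
  (∀ z : ℂ, ‖z‖ ≤ 1 → z ∉ E → 0 < (V z).re) →
  ∀ M : ℝ, 1 ≤ M →
  (∀ z z' : ℂ, ‖z‖ ≤ 1 → ‖z'‖ ≤ 1 → z ∉ E → z' ∉ E →
      ‖V z - V z'‖ ≤ M * ‖z - z'‖ ^ α * (‖V z‖ * ‖V z'‖)) →
  (∀ z : ℂ, ‖z‖ ≤ 1 → z ∉ E → ∀ e ∈ E, 1 ≤ M * ‖z - e‖ ^ α * ‖V z‖) →
  PK.IsPeakSet α E

/-- `b_m = 2^{-(m+1)}`. -/
noncomputable def bb (m : ℕ) : ℝ := (1 / 2 : ℝ) ^ (m + 1)

/-- Leaf N. -/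
def StmN : Prop := ∀ α : ℝ, 0 < α → α < 1 → ∃ (N : ℕ → ℕ) (C : ℝ), (∀ m, 1 ≤ N m) ∧
  Summable (fun m => (N m : ℝ) * bb m ^ ((1 - α) / α)) ∧
  (∀ m, (N m : ℝ) * bb m ^ ((1 - α) / α) * (1 + Real.log (N m)) ≤ C) ∧
  ¬ Summable (fun m => bb m * ((N m : ℝ) / bb m) ^ α)

/-- Leaf B. -/
def StmB : Prop := ∀ (N : ℕ) (h ρ x : ℝ), 1 ≤ N → 0 < h → 0 < ρ →
  ∑ j ∈ Finset.range N, 1 / (ρ + h * |x - (j : ℝ)|) ≤ 2 / ρ + 2 / h * (1 + Real.log N)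

/-- The distances `b_m (1 + j / N_m)`. -/
noncomputable def tt (N : ℕ → ℕ) (p : Σ m : ℕ, Fin (N m)) : ℝ :=
  bb p.1 * (1 + ((p.2 : ℕ) : ℝ) / (N p.1 : ℝ))

/-- The terms `σ / (ρ + |t - τ|)`. -/
noncomputable def TT (α : ℝ) (N : ℕ → ℕ) (t : ℝ) (p : Σ m : ℕ, Fin (N m)) : ℝ :=
  bb p.1 ^ ((1 - α) / α) / (bb p.1 ^ (1 / α) + |t - tt N p|)

/-- Leaf T. -/
def StmT : Prop := ∀ α : ℝ, 0 < α → α < 1 → ∀ (N : ℕ → ℕ) (C : ℝ), (∀ m, 1 ≤ N m) →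
  Summable (fun m => (N m : ℝ) * bb m ^ ((1 - α) / α)) →
  (∀ m, (N m : ℝ) * bb m ^ ((1 - α) / α) * (1 + Real.log (N m)) ≤ C) →
  ∃ C0 : ℝ, ∀ t : ℝ, 0 < t → Summable (TT α N t) ∧ ∑' p, TT α N t p ≤ C0 / t

/-- The point of the upper half of the circle at distance `t` from `1`. -/
noncomputable def pt (t : ℝ) : ℂ := ⟨1 - t ^ 2 / 2, t * Real.sqrt (1 - t ^ 2 / 4)⟩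

/-- Leaf X. -/
def StmX : Prop :=
  (∀ t : ℝ, 0 ≤ t → t ≤ 1 →
    ‖pt t‖ = 1 ∧ ‖1 - pt t‖ = t ∧ 0 ≤ (pt t).im ∧ 0 ≤ (pt t).re) ∧
  (∀ x t : ℝ, 0 ≤ x → x ≤ Real.pi → 2 * Real.sin (x / 2) ≤ 1 → 0 ≤ t → t ≤ 1 →
    ‖Complex.exp ((x : ℂ) * I) - pt t‖ ≤ 4 * |2 * Real.sin (x / 2) - t|)

/-- Leaf Q1. -/
def StmQ1 : Prop := ∀ α : ℝ, 0 < α → α < 1 → ∀ (N : ℕ → ℕ) (C : ℝ), (∀ m, 1 ≤ N m) →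
  Summable (fun m => (N m : ℝ) * bb m ^ ((1 - α) / α)) →
  (∀ t : ℝ, 0 < t → Summable (TT α N t) ∧ ∑' p, TT α N t p ≤ C / t) →
  ∃ C0 : ℝ, Conf α (fun p => pt (tt N p)) (fun p : (Σ m : ℕ, Fin (N m)) => bb p.1 ^ (1 / α)) C0

/-- Leaf Q2. -/
def StmQ2 : Prop := ∀ α : ℝ, 0 < α → α < 1 → ∀ N : ℕ → ℕ, (∀ m, 1 ≤ N m) →
  ¬ Summable (fun m => bb m * ((N m : ℝ) / bb m) ^ α) →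
  ∃ θ g : ℕ → ℝ, (∀ m, 0 ≤ θ m ∧ θ m ≤ 2 * Real.pi) ∧ (∀ m, θ (m + 1) ≤ θ m) ∧ (∀ m, 0 < g m) ∧
    (∀ m x, θ (m + 1) ≤ x → x ≤ θ m →
      ∃ e ∈ EE (fun p : (Σ m : ℕ, Fin (N m)) => pt (tt N p)),
        ‖Complex.exp ((x : ℂ) * I) - e‖ ≤ g m) ∧
    ¬ Summable (fun m => (θ m - θ (m + 1)) * g m ^ (-α))

/-- Leaf G. -/
def StmG : Prop := ∀ α : ℝ, 0 < α → α ≤ 1 → ∀ f : ℂ → ℂ, PK.IsGevrey α f →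
  ∃ A c : ℝ, 0 < c ∧ (∀ z ∈ ball (0 : ℂ) 1, f z ≠ 0 → Real.log ‖f z‖ ≤ A) ∧
    ∀ ζ : ℂ, ‖ζ‖ = 1 → (∀ n : ℕ, Tendsto (iteratedDeriv n f) (𝓝[ball 0 1] ζ) (𝓝 0)) →
      ∀ z ∈ ball (0 : ℂ) 1, f z ≠ 0 → ∀ d : ℝ, 0 < d → ‖z - ζ‖ ≤ d →
        Real.log ‖f z‖ ≤ A - c * d ^ (-α)

/-- Leaf Y. -/
def StmY : Prop := ∀ α : ℝ, 0 < α → α ≤ 1 → ∀ E : Set ℂ, (∀ e ∈ E, ‖e‖ = 1) →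
  PK.IsGevreyZeroSet α E →
  ∀ θ g : ℕ → ℝ, (∀ m, 0 ≤ θ m ∧ θ m ≤ 2 * Real.pi) → (∀ m, θ (m + 1) ≤ θ m) →
    (∀ m, 0 < g m) →
    (∀ m x, θ (m + 1) ≤ x → x ≤ θ m → ∃ e ∈ E, ‖Complex.exp ((x : ℂ) * I) - e‖ ≤ g m) →
    Summable (fun m => (θ m - θ (m + 1)) * g m ^ (-α))

/-- Leaf O. -/
def StmO : Prop := StmY → PK.IsPeakSet 1 {1} ∧ ¬ PK.IsGevreyZeroSet 1 {1}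

end PG
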