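import Pool.Agent.N229.PG.Main
import Pool.Agent.N542.PG.K1
import Pool.Agent.N402.PG.K2
import Pool.Agent.N8.PG.K3
import Pool.Agent.N793.PG.K4
import Pool.Agent.N296.PG.S1
import Pool.Agent.N806.PG.S2
import Pool.Agent.N816.PG.S3
import Pool.Agent.N58.PG.S4
import Pool.Agent.N710.PG.P
import Pool.Agent.N828.PG.B
import Pool.Agent.N439.PG.T
import Pool.Agent.N250.PG.N
import Pool.Agent.N261.PG.X
import Pool.Agent.N760.PG.Q1
import Pool.Agent.N478.PG.Q2
import Pool.Agent.N954.PG.G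
import Pool.Agent.N137.PG.Y
import Pool.Agent.N712.PG.O

/-! Peak sets of `A_α` which are not zero sets of `G_α`, for every exponent. -/

namespace PG

theorem all_exponents : ∀ α : ℝ, 0 < α → α ≤ 1 →
    ∃ E : Set ℂ, E.Countable ∧ PK.IsPeakSet α E ∧ ¬ PK.IsGevreyZeroSet α E :=
  main_of leaf_K1 leaf_K2 leaf_K3 leaf_K4 leaf_S1 leaf_S2 leaf_S3 leaf_S4 leaf_P leaf_N leaf_B
    leaf_T leaf_X leaf_Q1 leaf_Q2 leaf_G leaf_Y leaf_O

end PG
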