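import Pool.Agent.N229.PG.All

/-! Divergence of the integral of `dist (·, E)^{-α}` for the peak sets of project PG. -/

namespace PG

open Complex Filter Topology Metric Set MeasureTheory

lemma ae_notMem {E : Set ℂ} (hE : E.Countable) :
    ∀ᵐ (θ : ℝ) ∂((volume : Measure ℝ).restrict (Ioc 0 (2 * Real.pi))),
    Complex.exp ((θ : ℂ) * I) ∉ E := by
  rw [ae_restrict_iff' measurableSet_Ioc]
  have hc : {θ : ℝ | θ ∈ Ioc 0 (2 * Real.pi) ∧ Complex.exp ((θ : ℂ) * I) ∈ E}.Countable := by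
    apply MapsTo.countable_of_injOn (t := E) (f := fun θ : ℝ => Complex.exp ((θ : ℂ) * I))
      (fun θ hθ => hθ.2) _ hE
    have h1 := injOn_circleMap_of_abs_sub_le (a := 0) (b := 2 * Real.pi) (R := 1) (c := 0)
      one_ne_zero (by
        rw [zero_sub, abs_neg, abs_of_nonneg (by positivity)])
    rw [uIoc_of_le (by positivity)] at h1
    intro x hx y hy hxy
    apply h1 hx.1 hy.1
    unfold circleMap
    simp only [ofReal_one, one_mul, zero_add]
    exact hxy
  have h2 := hc.ae_notMem (volume : Measure ℝ)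
  filter_upwards [h2] with θ hθ hm hE
  exact hθ ⟨hm, hE⟩

theorem dist_integral {α : ℝ} (h0 : 0 < α) {E : Set ℂ} (hcl : IsClosed E) (hc : E.Countable)
    (hne : E.Nonempty) {θ g : ℕ → ℝ} (hθ : ∀ m, 0 ≤ θ m ∧ θ m ≤ 2 * Real.pi)
    (hanti : ∀ m, θ (m + 1) ≤ θ m) (hg : ∀ m, 0 < g m)
    (hblk : ∀ m x, θ (m + 1) ≤ x → x ≤ θ m →
      ∃ e ∈ E, ‖Complex.exp ((x : ℂ) * I) - e‖ ≤ g m)
    (hns : ¬ Summable (fun m => (θ m - θ (m + 1)) * g m ^ (-α))) :
    ∫⁻ x : ℝ in Ioc 0 (2 * Real.pi),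
      ENNReal.ofReal ((infDist (Complex.exp ((x : ℂ) * I)) E) ^ (-α)) = ⊤ := by
  by_contra hcon
  set h : ℝ → ℝ := fun x => (infDist (Complex.exp ((x : ℂ) * I)) E) ^ (-α) with hh
  have hmeas : Measurable h := by
    have : Continuous (fun x : ℝ => infDist (Complex.exp ((x : ℂ) * I)) E) :=
      (continuous_infDist_pt E).comp (by fun_prop)
    exact this.measurable.pow_const _
  have hnn : ∀ x, 0 ≤ h x := fun x => Real.rpow_nonneg infDist_nonneg _
  have hint : IntegrableOn h (Ioc 0 (2 * Real.pi)) := by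
    refine ⟨hmeas.aestronglyMeasurable, ?_⟩
    rw [hasFiniteIntegral_iff_ofReal (Eventually.of_forall hnn)]
    exact lt_top_iff_ne_top.mpr hcon
  have hψi : IntervalIntegrable h volume 0 (2 * Real.pi) := by
    rw [intervalIntegrable_iff, uIoc_of_le (by positivity)]
    exact hint
  apply hns
  refine summable_of_sum_range_le (c := ∫ x in (0 : ℝ)..(2 * Real.pi), h x)
    (fun k => mul_nonneg (by linarith [hanti k]) (Real.rpow_nonneg (hg k).le _)) (fun N => ?_)
  have hmono' : Antitone θ := antitone_nat_of_succ_le hanti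
  have hsubi : ∀ k l : ℕ, IntervalIntegrable h volume (θ k) (θ l) := by
    intro k l
    apply hψi.mono_set
    rw [uIcc_of_le (by positivity : (0 : ℝ) ≤ 2 * Real.pi)]
    apply uIcc_subset_Icc
    · exact hθ k
    · exact hθ l
  have hmono : ∫ x in (θ N)..(θ 0), h x ≤ ∫ x in (0 : ℝ)..(2 * Real.pi), h x := by
    apply intervalIntegral.integral_mono_interval (hθ N).1 (hmono' (Nat.zero_le N)) (hθ 0).2
      _ hψi
    exact Eventually.of_forall hnn
  have hsum : ∑ k ∈ Finset.range N, ∫ x in (θ (k + 1))..(θ k), h x =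
      ∫ x in (θ N)..(θ 0), h x := by
    have h1 := intervalIntegral.sum_integral_adjacent_intervals (f := h) (μ := volume)
      (a := θ) (n := N) (fun k _ => hsubi k (k + 1))
    rw [intervalIntegral.integral_symm, ← h1, ← Finset.sum_neg_distrib]
    apply Finset.sum_congr rfl
    intro k _
    rw [intervalIntegral.integral_symm]
  refine le_trans (Finset.sum_le_sum (fun k _ => ?_)) (hsum.trans_le hmono)
  have hlow : ∫ _ in (θ (k + 1))..(θ k), g k ^ (-α) ≤ ∫ x in (θ (k + 1))..(θ k), h x := by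
    rw [intervalIntegral.integral_of_le (hanti k), intervalIntegral.integral_of_le (hanti k)]
    have hsub : Ioc (θ (k + 1)) (θ k) ⊆ Ioc 0 (2 * Real.pi) :=
      Ioc_subset_Ioc (hθ _).1 (hθ _).2
    apply setIntegral_mono_ae_restrict (integrableOn_const (by simp)) (hsubi (k + 1) k).1
    filter_upwards [ae_mono (Measure.restrict_mono hsub le_rfl) (ae_notMem hc),
      ae_restrict_mem measurableSet_Ioc] with x hx hxm
    have hpos : 0 < infDist (Complex.exp ((x : ℂ) * I)) E :=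
      (hcl.notMem_iff_infDist_pos hne).mp hx
    obtain ⟨e, he, hle⟩ := hblk k x hxm.1.le hxm.2
    have hle' : infDist (Complex.exp ((x : ℂ) * I)) E ≤ g k := by
      refine (infDist_le_dist_of_mem he).trans ?_
      rw [dist_eq_norm]
      exact hle
    exact Real.rpow_le_rpow_of_nonpos hpos hle' (by linarith)
  refine le_trans (le_of_eq ?_) hlow
  rw [intervalIntegral.integral_const, smul_eq_mul]

theorem all_integrals : ∀ α : ℝ, 0 < α → α < 1 →
    ∃ E : Set ℂ, E.Countable ∧ PK.IsPeakSet α E ∧ ¬ PK.IsGevreyZeroSet α E ∧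
      ∫⁻ θ : ℝ in Set.Ioc 0 (2 * Real.pi),
        ENNReal.ofReal ((Metric.infDist (Complex.exp ((θ : ℂ) * Complex.I)) E) ^ (-α)) = ⊤ := by
  intro α h0 h1
  obtain ⟨N, C, hN, hsum, hlog, hdiv⟩ := leaf_N α h0 h1
  obtain ⟨C1, hT⟩ := leaf_T leaf_B α h0 h1 N C hN hsum hlog
  obtain ⟨C0, hc⟩ := leaf_Q1 leaf_X α h0 h1 N C1 hN hsum hT
  obtain ⟨θ, γ, hθ, hanti, hγ, hblk, hns⟩ := leaf_Q2 leaf_X α h0 h1 N hN hdiv
  have hcount : (EE (fun p : (Σ m : ℕ, Fin (N m)) => pt (tt N p))).Countable :=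
    (countable_range _).insert 1
  refine ⟨_, hcount, peak_of_conf (leaf_K3 leaf_K1) (leaf_K4 leaf_K1 leaf_K2) leaf_S1 leaf_S2
    leaf_S3 leaf_S4 leaf_P h0 h1 hc, ?_, ?_⟩
  · intro hz
    refine hns (leaf_Y leaf_G α h0 h1.le _ ?_ hz θ γ hθ hanti hγ hblk)
    intro e he
    rcases he with h | ⟨k, hk⟩
    · rw [h]; simp
    · rw [← hk]; exact hc.norm_a k
  · exact dist_integral h0 hc.closed hcount ⟨1, mem_insert _ _⟩ hθ hanti hγ hblk hns

end PG
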