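import Pool.Agent.N229.PG.Stm

/-! Assembly of the leaves of project PG. -/

namespace PG

open Complex Filter Topology Metric Set

theorem peak_of_conf (k3 : StmK3) (k4 : StmK4) (s1 : StmK3 → StmS1) (s2 : StmK4 → StmS2)
    (s3 : StmK3 → StmS3) (s4 : StmK3 → StmS4) (p : StmP) {α : ℝ} (h0 : 0 < α) (h1 : α < 1)
    {ι : Type} {a : ι → ℂ} {ρ : ι → ℝ} {C0 : ℝ} (hc : Conf α a ρ C0) :
    PK.IsPeakSet α (EE a) := by
  obtain ⟨cc, K, hg⟩ := s1 k3 α h0 h1 ι a ρ C0 hc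
  obtain ⟨M2, hM2, h2⟩ := s2 k4 α h0 h1 ι a ρ C0 hc cc K hg
  obtain ⟨M3, hM3, h3⟩ := s3 k3 α h0 h1 ι a ρ C0 hc cc K hg
  have hsub : EE a ⊆ sphere (0 : ℂ) 1 := by
    intro z hz
    rw [mem_sphere_zero_iff_norm]
    rcases hz with h | ⟨k, hk⟩
    · rw [h]; simp
    · rw [← hk]; exact hc.norm_a k
  refine p α h0 h1.le (EE a) hc.closed hsub (VV α cc a ρ)
    (fun z hz => s4 k3 α h0 h1 ι a ρ C0 hc cc z hz)
    (fun z hz hE => (hg.2.2 z hz hE).2.1) (max M2 M3) (le_trans hM2 (le_max_left _ _)) ?_ ?_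
  · intro z z' hz hz' hE hE'
    refine (h2 z z' hz hz' hE hE').trans ?_
    gcongr
    exact le_max_left _ _
  · intro z hz hE e he
    refine (h3 z hz hE e he).trans ?_
    gcongr
    exact le_max_right _ _

theorem main_of (k1 : StmK1) (k2 : StmK2) (k3 : StmK1 → StmK3) (k4 : StmK1 → StmK2 → StmK4)
    (s1 : StmK3 → StmS1) (s2 : StmK4 → StmS2)
    (s3 : StmK3 → StmS3) (s4 : StmK3 → StmS4) (p : StmP) (n : StmN) (b : StmB) (t : StmB → StmT)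
    (x : StmX) (q1 : StmX → StmQ1) (q2 : StmX → StmQ2) (g : StmG) (y : StmG → StmY)
    (o : StmO) :
    ∀ α : ℝ, 0 < α → α ≤ 1 →
      ∃ E : Set ℂ, E.Countable ∧ PK.IsPeakSet α E ∧ ¬ PK.IsGevreyZeroSet α E := by
  intro α h0 h1
  rcases h1.lt_or_eq with h1 | h1
  · obtain ⟨N, C, hN, hsum, hlog, hdiv⟩ := n α h0 h1
    obtain ⟨C1, hT⟩ := t b α h0 h1 N C hN hsum hlog
    obtain ⟨C0, hc⟩ := q1 x α h0 h1 N C1 hN hsum hT
    obtain ⟨θ, γ, hθ, hanti, hγ, hblk, hns⟩ := q2 x α h0 h1 N hN hdiv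
    refine ⟨_, ?_, peak_of_conf (k3 k1) (k4 k1 k2) s1 s2 s3 s4 p h0 h1 hc, ?_⟩
    · exact (countable_range _).insert 1
    · intro hz
      refine hns (y g α h0 h1.le _ ?_ hz θ γ hθ hanti hγ hblk)
      intro e he
      rcases he with h | ⟨k, hk⟩
      · rw [h]; simp
      · rw [← hk]; exact hc.norm_a k
  · subst h1
    obtain ⟨h2, h3⟩ := o (y g)
    exact ⟨{1}, countable_singleton 1, h2, h3⟩

end PG
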